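import Pool.Agent.HVW.Berl

/-!
# MP_157680_co: `W_{1/2}(p + 1) ≥ 2 ^ (p + 1) - 2` for every prime `p`
-/

set_option autoImplicit false

namespace Pool.Agent.Results.MP_157680_co.PrimeLength

open Pool.Agent.HVW

theorem result (p : ℕ) (hp : p.Prime) (H : ℕ)
    (hH : IsLeast {N : ℕ | ∀ c : ℕ → Bool, Halving N c →
      ¬ (NoAP (p + 1) N c true ∧ NoAP (p + 1) N c false)} H) :
    2 ^ (p + 1) - 2 ≤ H :=
  main2 p hp H hH

end Pool.Agent.Results.MP_157680_co.PrimeLength
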